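import Mathlib

set_option autoImplicit false

/-!
# The dyadic group, Walsh functions, martingale Hardy spaces, Norlund means: definitions
-/

namespace Pool.Agent.R243.WN

open Filter Topology MeasureTheory Set
open scoped ENNReal NNReal

/-- `G = {0,1}^ℕ` (`false` stands for `0`, `true` for `1`) -/
abbrev G := ℕ → Bool

/-- the product probability measure; each coordinate has mass `1/2` on each point -/
noncomputable def mu : Measure G :=
  Measure.infinitePi (fun _ : ℕ => (PMF.uniformOfFintype Bool).toMeasure)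

instance : IsProbabilityMeasure mu := by
  unfold mu
  infer_instance

/-- the interval `I_n(x) = {y : y_j = x_j for j < n}` -/
def I (n : ℕ) (x : G) : Set G := {y | ∀ j < n, y j = x j}

theorem I_meas (n : ℕ) (x : G) : MeasurableSet (I n x) := by
  have h : I n x = ⋂ j ∈ {j : ℕ | j < n}, (fun y : G => y j) ⁻¹' {x j} := by
    ext y
    simp [I]
  rw [h]
  refine MeasurableSet.biInter (Set.to_countable _) fun j _ => ?_
  exact measurable_pi_apply j (measurableSet_singleton _)

/-- flipping the `k`-th coordinate -/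
def flip (k : ℕ) (x : G) : G := Function.update x k (!x k)

theorem flip_ne {k j : ℕ} (h : j ≠ k) (x : G) : flip k x j = x j := by
  simp [flip, h]

theorem flip_self (k : ℕ) (x : G) : flip k x k = !x k := by
  simp [flip]

theorem I_succ (n : ℕ) (x : G) : I n x = I (n + 1) x ∪ I (n + 1) (flip n x) := by
  ext y
  constructor
  · intro h
    by_cases hy : y n = x n
    · left
      intro j hj
      rcases Nat.lt_succ_iff_lt_or_eq.1 hj with h1 | h1
      · exact h j h1
      · rw [h1, hy]
    · right
      intro j hj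
      rcases Nat.lt_succ_iff_lt_or_eq.1 hj with h1 | h1
      · rw [flip_ne h1.ne, h j h1]
      · rw [h1, flip_self]
        cases h2 : x n <;> cases h3 : y n <;> simp_all
  · rintro (h | h) j hj
    · exact h j (by omega)
    · rw [h j (by omega), flip_ne hj.ne]

/-- the filtration: `F_n` is generated by the intervals `I_n(x)` -/
def F : Filtration ℕ (inferInstance : MeasurableSpace G) where
  seq n := MeasurableSpace.generateFrom {A | ∃ x, A = I n x}
  mono' := by
    refine monotone_nat_of_le_succ fun n => ?_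
    refine MeasurableSpace.generateFrom_le ?_
    rintro A ⟨x, rfl⟩
    rw [I_succ]
    refine MeasurableSet.union ?_ ?_
    · exact MeasurableSpace.measurableSet_generateFrom ⟨x, rfl⟩
    · exact MeasurableSpace.measurableSet_generateFrom ⟨flip n x, rfl⟩
  le' n := by
    refine MeasurableSpace.generateFrom_le ?_
    rintro A ⟨x, rfl⟩
    exact I_meas n x

/-- Rademacher functions `r_k(x) = (-1)^{x_k}` -/
def r (k : ℕ) (x : G) : ℝ := if x k then -1 else 1

/-- Walsh functions `w_n = ∏_k r_k^{n_k}`, `n = Σ_k n_k 2^k` (the binary digits `n_k` with `k ≥ n`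
are zero) -/
noncomputable def w (n : ℕ) (x : G) : ℝ := ∏ k ∈ Finset.range n, if n.testBit k then r k x else 1

/-- the Walsh-Fourier coefficient `lim_k ∫ f^{(k)} w_i dμ` -/
noncomputable def coef (f : ℕ → G → ℝ) (i : ℕ) : ℝ :=
  limUnder atTop (fun k : ℕ => ∫ x, f k x * w i x ∂mu)

/-- the partial sum `S_k f` -/
noncomputable def S (f : ℕ → G → ℝ) (k : ℕ) (x : G) : ℝ :=
  ∑ i ∈ Finset.range k, coef f i * w i x

/-- `‖g‖_p = (∫ |g|^p dμ)^{1/p}` -/
noncomputable def pNorm (p : ℝ) (g : G → ℝ) : ℝ≥0∞ := (∫⁻ x, ‖g x‖ₑ ^ p ∂mu) ^ (1 / p)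

/-- `‖f‖_{H_p} = ‖sup_n |f^{(n)}|‖_p` -/
noncomputable def hpNorm (p : ℝ) (f : ℕ → G → ℝ) : ℝ≥0∞ :=
  (∫⁻ x, (⨆ n, ‖f n x‖ₑ) ^ p ∂mu) ^ (1 / p)

end Pool.Agent.R243.WN
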