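import Mathlib
import Pool.Agent.R243.WN.Defs

set_option autoImplicit false

namespace Pool.Agent.R243.WN

open Filter Topology MeasureTheory Set
open scoped ENNReal NNReal

theorem r_mul_self (k : ℕ) (x : G) : r k x * r k x = 1 := by
  unfold r
  split_ifs <;> norm_num

theorem testBit_false {n k : ℕ} (h : n < 2 ^ k) : n.testBit k = false :=
  Nat.testBit_eq_false_of_lt h

theorem w_eq_aux {n K L : ℕ} (h : n < 2 ^ K) (hKL : K ≤ L) (x : G) :
    ∏ k ∈ Finset.range K, (if n.testBit k then r k x else 1) =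
      ∏ k ∈ Finset.range L, (if n.testBit k then r k x else 1) := by
  refine Finset.prod_subset (Finset.range_mono hKL) fun k _ hk => ?_
  rw [Finset.mem_range, not_lt] at hk
  rw [testBit_false (h.trans_le (Nat.pow_le_pow_right (by norm_num) hk))]
  simp

theorem w_eq {n K : ℕ} (h : n < 2 ^ K) (x : G) :
    w n x = ∏ k ∈ Finset.range K, (if n.testBit k then r k x else 1) := by
  unfold w
  rw [w_eq_aux (Nat.lt_two_pow_self) (le_max_left n K), w_eq_aux h (le_max_right n K)]

theorem w_mul_self (n : ℕ) (x : G) : w n x * w n x = 1 := by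
  unfold w
  rw [← Finset.prod_mul_distrib]
  refine Finset.prod_eq_one fun k _ => ?_
  split_ifs
  · exact r_mul_self k x
  · norm_num

theorem w_abs (n : ℕ) (x : G) : |w n x| = 1 := by
  have h := w_mul_self n x
  have h1 : |w n x| * |w n x| = 1 := by rw [← abs_mul, h, abs_one]
  nlinarith [abs_nonneg (w n x)]

theorem w_zero (x : G) : w 0 x = 1 := by
  simp [w]

theorem w_add_mul {m q i : ℕ} (h : i < 2 ^ m) (x : G) :
    w (2 ^ m * q + i) x = w (2 ^ m * q) x * w i x := by
  have h1 : 2 ^ m * q + i < 2 ^ (2 ^ m * q + i) := Nat.lt_two_pow_self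
  have h2 : 2 ^ m * q < 2 ^ (2 ^ m * q + i) := by omega
  have h3 : i < 2 ^ (2 ^ m * q + i) := by omega
  rw [w_eq h1, w_eq h2, w_eq h3, ← Finset.prod_mul_distrib]
  refine Finset.prod_congr rfl fun k _ => ?_
  have e2 := Nat.testBit_two_pow_mul_add q (Nat.two_pow_pos m) k
  rw [add_zero] at e2
  rw [Nat.testBit_two_pow_mul_add q h k, e2]
  by_cases hk : k < m
  · simp [hk]
  · rw [if_neg hk, if_neg hk]
    rw [testBit_false (h.trans_le (Nat.pow_le_pow_right (by norm_num) (not_lt.1 hk)))]
    simp

theorem w_one_of {m i : ℕ} (h : i < 2 ^ m) {x : G} (hx : ∀ j < m, x j = false) : w i x = 1 := by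
  rw [w_eq h]
  refine Finset.prod_eq_one fun k hk => ?_
  rw [Finset.mem_range] at hk
  simp [r, hx k hk]

theorem w_compl {N l : ℕ} (h : l < 2 ^ N) (x : G) :
    w (2 ^ N - (l + 1)) x = w (2 ^ N - 1) x * w l x := by
  have h0 : 0 < 2 ^ N := Nat.two_pow_pos N
  have h1 : 2 ^ N - (l + 1) < 2 ^ N := by omega
  have h2 : 2 ^ N - 1 < 2 ^ N := by omega
  rw [w_eq h1, w_eq h2, w_eq h, ← Finset.prod_mul_distrib]
  refine Finset.prod_congr rfl fun k hk => ?_
  rw [Finset.mem_range] at hk
  have e2 := Nat.testBit_two_pow_sub_succ h0 k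
  rw [zero_add] at e2
  rw [Nat.testBit_two_pow_sub_succ h k, e2]
  cases hb : l.testBit k
  · simp [hk]
  · simp [hk, r_mul_self]

theorem w_pow (s : ℕ) (x : G) : w (2 ^ s) x = r s x := by
  have h : 2 ^ s < 2 ^ (s + 1) := Nat.pow_lt_pow_right (by norm_num) (by omega)
  rw [w_eq h, Finset.prod_range_succ, Nat.testBit_two_pow_self, if_pos rfl]
  rw [Finset.prod_eq_one, one_mul]
  intro k hk
  rw [Finset.mem_range] at hk
  rw [Nat.testBit_two_pow_of_ne (by omega)]
  simp

theorem w_flip (n k : ℕ) (x : G) : w n (flip k x) = if n.testBit k then - w n x else w n x := by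
  by_cases hb : n.testBit k
  · have hk : k < n := by
      by_contra hcon
      have : n < 2 ^ k := lt_of_lt_of_le Nat.lt_two_pow_self
        (Nat.pow_le_pow_right (by norm_num) (not_lt.1 hcon))
      rw [testBit_false this] at hb
      exact Bool.false_ne_true hb
    rw [if_pos hb]
    unfold w
    rw [← Finset.mul_prod_erase _ _ (Finset.mem_range.2 hk),
      ← Finset.mul_prod_erase _ (fun j => if n.testBit j then r j x else 1) (Finset.mem_range.2 hk)]
    simp only [hb, if_true]
    have h1 : r k (flip k x) = - r k x := by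
      unfold r
      rw [flip_self]
      cases x k <;> simp
    have h2 : ∏ j ∈ (Finset.range n).erase k, (if n.testBit j then r j (flip k x) else 1) =
        ∏ j ∈ (Finset.range n).erase k, (if n.testBit j then r j x else 1) := by
      refine Finset.prod_congr rfl fun j hj => ?_
      have : r j (flip k x) = r j x := by
        unfold r
        rw [flip_ne (Finset.ne_of_mem_erase hj)]
      rw [this]
    rw [h1, h2]
    ring
  · rw [if_neg hb]
    unfold w
    refine Finset.prod_congr rfl fun j _ => ?_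
    by_cases hj : j = k
    · rw [hj, if_neg hb, if_neg hb]
    · have : r j (flip k x) = r j x := by
        unfold r
        rw [flip_ne hj]
      rw [this]

/-- Dirichlet kernels -/
noncomputable def D (j : ℕ) (x : G) : ℝ := ∑ l ∈ Finset.range j, w l x

theorem D_zero (x : G) : D 0 x = 0 := by simp [D]

theorem D_succ (j : ℕ) (x : G) : D (j + 1) x = D j x + w j x := by
  unfold D
  rw [Finset.sum_range_succ]

theorem D_block {m q i : ℕ} (h : i ≤ 2 ^ m) (x : G) :
    D (2 ^ m * q + i) x = D (2 ^ m * q) x + w (2 ^ m * q) x * D i x := by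
  induction i with
  | zero => simp [D_zero]
  | succ i ih =>
    rw [← add_assoc, D_succ, ih (by omega), D_succ, w_add_mul (by omega)]
    ring

theorem D_mul_zero {m : ℕ} {x : G} (h : D (2 ^ m) x = 0) (q : ℕ) : D (2 ^ m * q) x = 0 := by
  induction q with
  | zero => simp [D_zero]
  | succ q ih =>
    rw [mul_add, mul_one, D_block le_rfl, ih, h]
    simp

theorem D_low {s i : ℕ} {x : G} (hx : ∀ j < s, x j = false) (h : i ≤ 2 ^ s) : D i x = i := by
  unfold D
  rw [Finset.sum_congr rfl (fun l hl => w_one_of (m := s)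
    ((Finset.mem_range.1 hl).trans_le h) hx)]
  simp

theorem D_mid {s i : ℕ} {x : G} (hx : ∀ j < s, x j = false) (hs : x s = true) (h : i ≤ 2 ^ s) :
    D (2 ^ s + i) x = 2 ^ s - i := by
  have h1 := D_block (q := 1) h x
  rw [mul_one] at h1
  rw [h1, w_pow, D_low hx le_rfl, D_low hx h]
  simp [r, hs]
  ring

theorem D_two {s : ℕ} {x : G} (hx : ∀ j < s, x j = false) (hs : x s = true) :
    D (2 ^ (s + 1)) x = 0 := by
  have h1 := D_mid (i := 2 ^ s) hx hs le_rfl
  rw [pow_succ, mul_two, h1]
  push_cast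
  ring

/-- the tent -/
noncomputable def tent (s i : ℕ) : ℝ := if i ≤ 2 ^ s then (i : ℝ) else 2 ^ (s + 1) - i

theorem tent_nonneg {s i : ℕ} (h : i < 2 ^ (s + 1)) : 0 ≤ tent s i := by
  unfold tent
  split_ifs
  · positivity
  · have : (i : ℝ) < 2 ^ (s + 1) := by exact_mod_cast h
    linarith

theorem tent_le {s i : ℕ} : tent s i ≤ 2 ^ s := by
  unfold tent
  split_ifs with h
  · exact_mod_cast h
  · have : (2:ℝ) ^ s < i := by
      have := not_le.1 h
      exact_mod_cast this
    rw [pow_succ]
    linarith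

theorem D_tent {s i : ℕ} {x : G} (hx : ∀ j < s, x j = false) (hs : x s = true)
    (h : i ≤ 2 ^ (s + 1)) : D i x = tent s i := by
  unfold tent
  split_ifs with h1
  · exact D_low hx h1
  · have h2 : 2 ^ s < i := not_le.1 h1
    obtain ⟨l, rfl⟩ := Nat.exists_eq_add_of_le h2.le
    rw [pow_succ] at h
    rw [D_mid hx hs (by omega)]
    push_cast
    rw [pow_succ]
    ring

theorem D_tent_neg {s i : ℕ} {x : G} (hx : ∀ j < s, x j = false) (hs : x s = true)
    (hs1 : x (s + 1) = true) (h : i ≤ 2 ^ (s + 1)) : D (2 ^ (s + 1) + i) x = - tent s i := by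
  have h1 := D_block (q := 1) h x
  rw [mul_one] at h1
  rw [h1, w_pow, D_two hx hs, D_tent hx hs h]
  simp [r, hs1]

theorem D_four {s : ℕ} {x : G} (hx : ∀ j < s, x j = false) (hs : x s = true)
    (hs1 : x (s + 1) = true) : D (2 ^ (s + 2)) x = 0 := by
  have h1 := D_tent_neg (i := 2 ^ (s + 1)) hx hs hs1 le_rfl
  have h2 : 2 ^ (s + 2) = 2 ^ (s + 1) + 2 ^ (s + 1) := by ring
  rw [h2, h1, ← D_tent hx hs le_rfl, D_two hx hs, neg_zero]

theorem D_reflect {N j : ℕ} (h : j ≤ 2 ^ N) (x : G) :
    D (2 ^ N - j) x = D (2 ^ N) x - w (2 ^ N - 1) x * D j x := by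
  induction j with
  | zero => simp [D_zero]
  | succ j ih =>
    have h1 := ih (by omega)
    have h2 : 2 ^ N - j = (2 ^ N - (j + 1)) + 1 := by omega
    rw [h2, D_succ, w_compl (by omega)] at h1
    rw [D_succ, mul_add]
    linarith

/-- the Dirichlet kernel of order `2^N` -/
theorem D_pow (N : ℕ) (x : G) : D (2 ^ N) x = (I N (fun _ => false)).indicator (fun _ => (2:ℝ) ^ N) x := by
  classical
  by_cases h : x ∈ I N (fun _ => false)
  · rw [indicator_of_mem h, D_low (fun j hj => h j hj) le_rfl]
    push_cast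
    rfl
  · rw [indicator_of_notMem h]
    have hex : ∃ s, s < N ∧ x s = true := by
      by_contra hcon
      push Not at hcon
      refine h fun j hj => ?_
      have := hcon j hj
      simpa using this
    set s := Nat.find hex with hs
    obtain ⟨hsN, hs1⟩ := Nat.find_spec hex
    have hmin : ∀ j < s, x j = false := by
      intro j hj
      have := Nat.find_min hex hj
      have h1 : ¬ (x j = true) := fun h2 => this ⟨hj.trans hsN, h2⟩
      simpa using h1
    have h2 := D_mul_zero (D_two hmin hs1) (2 ^ (N - (s + 1)))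
    rw [← pow_add] at h2
    have h3 : s + 1 + (N - (s + 1)) = N := by omega
    rwa [h3] at h2

end Pool.Agent.R243.WN
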