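import Mathlib
import Pool.Agent.R243.WN.Walsh

set_option autoImplicit false

namespace Pool.Agent.R243.WN

open Filter Topology MeasureTheory Set
open scoped ENNReal NNReal

/-- the block coefficients -/
noncomputable def blk (q : ℕ → ℝ) (s b : ℕ) : ℝ :=
  ∑ i ∈ Finset.range (2 ^ (s + 1)),
    (q (2 ^ (s + 2) * b + i) - q (2 ^ (s + 2) * b + (2 ^ (s + 1) + i))) * tent s i

/-- the set `B_s` -/
def B (s : ℕ) : Set G := {x | (∀ j < s, x j = false) ∧ x s = true ∧ x (s + 1) = true}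

theorem block_sum (q : ℕ → ℝ) {s : ℕ} {x : G} (hx : x ∈ B s) (Q : ℕ) :
    ∑ j ∈ Finset.range (2 ^ (s + 2) * Q), q j * D j x =
      ∑ b ∈ Finset.range Q, w (2 ^ (s + 2) * b) x * blk q s b := by
  obtain ⟨h0, hs, hs1⟩ := hx
  induction Q with
  | zero => simp
  | succ Q ih =>
    rw [mul_add, mul_one, Finset.sum_range_add, ih, Finset.sum_range_succ]
    congr 1
    have h2 : 2 ^ (s + 2) = 2 ^ (s + 1) + 2 ^ (s + 1) := by ring
    have h3 : ∀ i ≤ 2 ^ (s + 2), D (2 ^ (s + 2) * Q + i) x = w (2 ^ (s + 2) * Q) x * D i x := by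
      intro i hi
      rw [D_block hi, D_mul_zero (D_four h0 hs hs1), zero_add]
    have h4 : ∑ i ∈ Finset.range (2 ^ (s + 2)), q (2 ^ (s + 2) * Q + i) * D (2 ^ (s + 2) * Q + i) x =
        w (2 ^ (s + 2) * Q) x * ∑ i ∈ Finset.range (2 ^ (s + 2)), q (2 ^ (s + 2) * Q + i) * D i x := by
      rw [Finset.mul_sum]
      refine Finset.sum_congr rfl fun i hi => ?_
      rw [h3 i (Finset.mem_range.1 hi).le]
      ring
    rw [h4]
    congr 1
    have h5 : ∑ i ∈ Finset.range (2 ^ (s + 2)), q (2 ^ (s + 2) * Q + i) * D i x =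
        ∑ i ∈ Finset.range (2 ^ (s + 1) + 2 ^ (s + 1)), q (2 ^ (s + 2) * Q + i) * D i x := by
      rw [← h2]
    rw [h5, Finset.sum_range_add, ← Finset.sum_add_distrib]
    unfold blk
    refine Finset.sum_congr rfl fun i hi => ?_
    rw [D_tent h0 hs (Finset.mem_range.1 hi).le, D_tent_neg h0 hs hs1 (Finset.mem_range.1 hi).le]
    ring

theorem blk_nonneg {q : ℕ → ℝ} (hq : Antitone q) (s b : ℕ) : 0 ≤ blk q s b := by
  refine Finset.sum_nonneg fun i hi => ?_
  have h0 := Nat.two_pow_pos s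
  exact mul_nonneg (sub_nonneg.2 (hq (by omega))) (tent_nonneg (Finset.mem_range.1 hi))

theorem sum_blk_le {q : ℕ → ℝ} (hq : Antitone q) (hpos : ∀ j, 0 ≤ q j) (s Q : ℕ) :
    ∑ b ∈ Finset.range Q, blk q s b ≤ 2 ^ s * ∑ i ∈ Finset.range (2 ^ (s + 1)), q i := by
  have h1 : ∀ b, blk q s b ≤ ∑ i ∈ Finset.range (2 ^ (s + 1)),
      (q (2 ^ (s + 2) * b + i) - q (2 ^ (s + 2) * (b + 1) + i)) * tent s i := by
    intro b
    refine Finset.sum_le_sum fun i hi => ?_
    refine mul_le_mul_of_nonneg_right ?_ (tent_nonneg (Finset.mem_range.1 hi))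
    have : q (2 ^ (s + 2) * (b + 1) + i) ≤ q (2 ^ (s + 2) * b + (2 ^ (s + 1) + i)) := by
      apply hq
      have h2 : 2 ^ (s + 2) = 2 ^ (s + 1) + 2 ^ (s + 1) := by ring
      have h0 := Nat.two_pow_pos (s + 1)
      rw [mul_add, mul_one, add_assoc]
      refine Nat.add_le_add_left ?_ _
      rw [h2]
      generalize 2 ^ (s + 1) = a at *
      omega
    linarith
  calc ∑ b ∈ Finset.range Q, blk q s b ≤ ∑ b ∈ Finset.range Q, ∑ i ∈ Finset.range (2 ^ (s + 1)),
        (q (2 ^ (s + 2) * b + i) - q (2 ^ (s + 2) * (b + 1) + i)) * tent s i :=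
        Finset.sum_le_sum fun b _ => h1 b
    _ = ∑ i ∈ Finset.range (2 ^ (s + 1)), (q i - q (2 ^ (s + 2) * Q + i)) * tent s i := by
        rw [Finset.sum_comm]
        refine Finset.sum_congr rfl fun i _ => ?_
        rw [← Finset.sum_mul, Finset.sum_range_sub' (fun b => q (2 ^ (s + 2) * b + i))]
        simp
    _ ≤ ∑ i ∈ Finset.range (2 ^ (s + 1)), 2 ^ s * q i := by
        refine Finset.sum_le_sum fun i hi => ?_
        have h2 := hpos (2 ^ (s + 2) * Q + i)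
        have h3 : (0:ℝ) ≤ tent s i := tent_nonneg (Finset.mem_range.1 hi)
        have h4 := hpos i
        calc (q i - q (2 ^ (s + 2) * Q + i)) * tent s i ≤ q i * tent s i :=
              mul_le_mul_of_nonneg_right (by linarith) h3
          _ ≤ q i * 2 ^ s := mul_le_mul_of_nonneg_left tent_le h4
          _ = _ := mul_comm _ _
    _ = _ := by rw [Finset.mul_sum]

/-- lower bound for the first block coefficient -/
theorem blk_zero_ge {q : ℕ → ℝ} (hq : Antitone q) (hpos : ∀ j, 0 ≤ q j) {κ : ℝ} (hκ : 0 ≤ κ) (s : ℕ)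
    (hκq : ∀ i ≤ 2 ^ s, q (2 ^ (s + 1) + i) ≤ (1 - κ) * q i) :
    κ * q (2 ^ s) * (2 ^ s * 2 ^ s / 4) ≤ blk q s 0 := by
  have h1 : ∑ i ∈ Finset.range (2 ^ s), κ * q (2 ^ s) * (i:ℝ) ≤ ∑ i ∈ Finset.range (2 ^ s),
      (q (2 ^ (s + 2) * 0 + i) - q (2 ^ (s + 2) * 0 + (2 ^ (s + 1) + i))) * tent s i := by
    refine Finset.sum_le_sum fun i hi => ?_
    have hi' := (Finset.mem_range.1 hi).le
    have h2 : tent s i = i := by
      unfold tent
      rw [if_pos hi']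
    rw [h2]
    refine mul_le_mul_of_nonneg_right ?_ (by positivity)
    simp only [mul_zero, zero_add]
    have h3 := hκq i hi'
    have h4 : q (2 ^ s) ≤ q i := hq hi'
    nlinarith
  have h5 : ∑ i ∈ Finset.range (2 ^ s),
      (q (2 ^ (s + 2) * 0 + i) - q (2 ^ (s + 2) * 0 + (2 ^ (s + 1) + i))) * tent s i ≤ blk q s 0 := by
    refine Finset.sum_le_sum_of_subset_of_nonneg (Finset.range_mono ?_) fun i hi _ => ?_
    · exact Nat.pow_le_pow_right (by norm_num) (by omega)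
    · have h0 := Nat.two_pow_pos s
      exact mul_nonneg (sub_nonneg.2 (hq (by omega))) (tent_nonneg (Finset.mem_range.1 hi))
  have h6 : (∑ i ∈ Finset.range (2 ^ s), (i:ℝ)) * 2 = 2 ^ s * (2 ^ s - 1) := by
    have := Finset.sum_range_id_mul_two (2 ^ s)
    have h7 : ((∑ i ∈ Finset.range (2 ^ s), i : ℕ) : ℝ) * 2 = ((2 ^ s * (2 ^ s - 1) : ℕ) : ℝ) := by
      exact_mod_cast this
    rw [Nat.cast_sum] at h7
    rw [h7, Nat.cast_mul, Nat.cast_sub (Nat.one_le_two_pow)]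
    push_cast
    rfl
  rcases Nat.eq_zero_or_pos s with hs | hs
  · subst hs
    -- the case s = 0
    have h7 : blk q 0 0 = q 1 - q 3 := by
      unfold blk tent
      simp [Finset.sum_range_succ]
    rw [h7]
    have h8 := hκq 1 (by norm_num)
    norm_num at h8 ⊢
    have h9 := hpos 1
    nlinarith
  · have h7 : (2:ℝ) ≤ 2 ^ s := by
      calc (2:ℝ) = 2 ^ 1 := by norm_num
        _ ≤ 2 ^ s := pow_le_pow_right₀ (by norm_num) hs
    have h8 : (2:ℝ) ^ s * 2 ^ s / 4 ≤ ∑ i ∈ Finset.range (2 ^ s), (i:ℝ) := by nlinarith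
    have h9 : 0 ≤ κ * q (2 ^ s) := mul_nonneg hκ (hpos _)
    calc κ * q (2 ^ s) * (2 ^ s * 2 ^ s / 4) ≤ κ * q (2 ^ s) * ∑ i ∈ Finset.range (2 ^ s), (i:ℝ) :=
          mul_le_mul_of_nonneg_left h8 h9
      _ = ∑ i ∈ Finset.range (2 ^ s), κ * q (2 ^ s) * (i:ℝ) := by rw [Finset.mul_sum]
      _ ≤ _ := h1.trans h5

end Pool.Agent.R243.WN
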