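import Mathlib
import Pool.Agent.R243.WN.Sum

set_option autoImplicit false

namespace Pool.Agent.R243.WN

open Filter Topology MeasureTheory Set
open scoped ENNReal NNReal

theorem coin_singleton (b : Bool) : (PMF.uniformOfFintype Bool).toMeasure {b} = 2⁻¹ := by
  rw [PMF.toMeasure_apply_singleton _ _ (measurableSet_singleton _)]
  simp

theorem flip_measurable (k : ℕ) : Measurable (flip k) := by
  refine measurable_pi_lambda _ fun j => ?_
  by_cases hj : j = k
  · subst hj
    simp only [flip_self]
    have h : Measurable (fun x : G => x j) := measurable_pi_apply j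
    exact (measurable_of_finite (fun b : Bool => !b)).comp h
  · simp only [flip_ne hj]
    exact measurable_pi_apply j

theorem flip_mp (k : ℕ) : MeasurePreserving (flip k) mu mu := by
  refine ⟨flip_measurable k, ?_⟩
  have h1 : flip k = fun x i => (if i = k then (fun b : Bool => !b) else id) (x i) := by
    funext x i
    by_cases hi : i = k
    · subst hi
      simp [flip_self]
    · simp [flip_ne hi, hi]
  rw [h1]
  unfold mu
  rw [Measure.infinitePi_map_pi]
  · congr 1
    funext i
    by_cases hi : i = k
    · rw [if_pos hi]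
      refine Measure.ext_of_singleton ?_
      intro b
      rw [Measure.map_apply (measurable_of_finite _) (measurableSet_singleton _)]
      have : (fun b : Bool => !b) ⁻¹' {b} = {!b} := by
        ext c
        cases b <;> cases c <;> simp
      rw [this, coin_singleton, coin_singleton]
    · rw [if_neg hi, Measure.map_id]
  · intro i
    exact measurable_of_finite _

theorem cyl_measure (s : Finset ℕ) (v : ℕ → Bool) :
    mu {x : G | ∀ j ∈ s, x j = v j} = (2⁻¹ : ℝ≥0∞) ^ s.card := by
  have h1 : {x : G | ∀ j ∈ s, x j = v j} = Set.pi (s : Set ℕ) (fun j => {v j}) := by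
    ext x
    simp
  rw [h1]
  unfold mu
  rw [Measure.infinitePi_pi _ (fun i _ => measurableSet_singleton _)]
  rw [Finset.prod_congr rfl (fun i _ => coin_singleton (v i)), Finset.prod_const]

theorem mu_I (N : ℕ) (v : G) : mu (I N v) = (2⁻¹ : ℝ≥0∞) ^ N := by
  have h1 : I N v = {x : G | ∀ j ∈ Finset.range N, x j = v j} := by
    ext x
    simp [I]
  rw [h1, cyl_measure, Finset.card_range]

theorem B_eq (s : ℕ) : B s = {x : G | ∀ j ∈ Finset.range (s + 2), x j = decide (s ≤ j)} := by
  ext x
  constructor
  · rintro ⟨h0, hs, hs1⟩ j hj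
    rw [Finset.mem_range] at hj
    rcases lt_trichotomy j s with h | h | h
    · rw [h0 j h]
      simp [h]
    · rw [h, hs]
      simp
    · have : j = s + 1 := by omega
      rw [this, hs1]
      simp
  · intro h
    refine ⟨fun j hj => ?_, ?_, ?_⟩
    · have := h j (Finset.mem_range.2 (by omega))
      rw [this]
      simp [hj]
    · have := h s (Finset.mem_range.2 (by omega))
      rw [this]
      simp
    · have := h (s + 1) (Finset.mem_range.2 (by omega))
      rw [this]
      simp

theorem mu_B (s : ℕ) : mu (B s) = (2⁻¹ : ℝ≥0∞) ^ (s + 2) := by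
  rw [B_eq, cyl_measure _ (fun j => decide (s ≤ j)), Finset.card_range]

theorem B_measurable (s : ℕ) : MeasurableSet (B s) := by
  have h : B s = I (s + 2) (fun j => decide (s ≤ j)) := by
    rw [B_eq]
    ext x
    simp [I]
  rw [h]
  exact I_meas _ _

theorem w_measurable (n : ℕ) : Measurable (w n) := by
  unfold w
  refine Finset.measurable_prod _ fun k _ => ?_
  split_ifs
  · have : (fun x : G => r k x) = fun x => (fun b : Bool => if b then (-1:ℝ) else 1) (x k) := rfl
    rw [this]
    have h : Measurable (fun x : G => x k) := measurable_pi_apply k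
    exact (measurable_of_finite (fun b : Bool => if b then (-1:ℝ) else 1)).comp h
  · exact measurable_const

theorem w_integrable (n : ℕ) (ν : Measure G) [IsFiniteMeasure ν] : Integrable (w n) ν := by
  refine Integrable.of_bound (w_measurable n).aestronglyMeasurable 1 (Eventually.of_forall fun x => ?_)
  rw [Real.norm_eq_abs, w_abs]

/-- antisymmetric functions have mean zero -/
theorem integral_zero_of_flip {g : G → ℝ} (k : ℕ) (hg : ∀ x, g (flip k x) = - g x)
    (hm : Measurable g) : ∫ x, g x ∂mu = 0 := by
  have h1 : ∫ x, g x ∂mu = ∫ x, g (flip k x) ∂mu := by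
    conv_lhs => rw [← (flip_mp k).map_eq]
    exact integral_map (flip_measurable k).aemeasurable hm.aestronglyMeasurable
  simp only [hg] at h1
  rw [integral_neg] at h1
  linarith

theorem w_orth (i j : ℕ) : ∫ x, w i x * w j x ∂mu = if i = j then 1 else 0 := by
  by_cases h : i = j
  · subst h
    rw [if_pos rfl]
    simp [w_mul_self]
  · rw [if_neg h]
    obtain ⟨k, hk⟩ := Nat.exists_testBit_ne_of_ne h
    refine integral_zero_of_flip k (fun x => ?_) ((w_measurable i).mul (w_measurable j))
    rw [w_flip, w_flip]
    cases h1 : i.testBit k <;> cases h2 : j.testBit k <;> simp_all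

theorem B_flip {s k : ℕ} (hk : s + 2 ≤ k) (x : G) : flip k x ∈ B s ↔ x ∈ B s := by
  unfold B
  simp only [Set.mem_ofPred_eq]
  have h1 : flip k x s = x s := flip_ne (by omega) x
  have h2 : flip k x (s + 1) = x (s + 1) := flip_ne (by omega) x
  rw [h1, h2]
  have h3 : (∀ j < s, flip k x j = false) ↔ (∀ j < s, x j = false) := by
    constructor
    · intro h j hj
      rw [← flip_ne (show j ≠ k by omega) x]
      exact h j hj
    · intro h j hj
      rw [flip_ne (show j ≠ k by omega) x]
      exact h j hj
  rw [h3]

theorem B_integral_w (s b : ℕ) :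
    ∫ x in B s, w (2 ^ (s + 2) * b) x ∂mu = if b = 0 then (2⁻¹ : ℝ) ^ (s + 2) else 0 := by
  by_cases hb : b = 0
  · subst hb
    rw [if_pos rfl]
    simp only [mul_zero, w_zero]
    rw [setIntegral_const, smul_eq_mul, mul_one, Measure.real, mu_B, ENNReal.toReal_pow,
      ENNReal.toReal_inv]
    norm_num
  · rw [if_neg hb]
    obtain ⟨k, hk⟩ := Nat.exists_testBit_ne_of_ne hb
    rw [Nat.zero_testBit] at hk
    have hk' : b.testBit k = true := by simpa using hk
    rw [← integral_indicator (B_measurable s)]
    refine integral_zero_of_flip (s + 2 + k) (fun x => ?_) ((w_measurable _).indicator (B_measurable s))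
    by_cases hx : x ∈ B s
    · rw [indicator_of_mem hx, indicator_of_mem ((B_flip (by omega) x).2 hx), w_flip, if_pos]
      rw [Nat.testBit_two_pow_mul]
      simp [hk']
    · rw [indicator_of_notMem hx, indicator_of_notMem (fun h => hx ((B_flip (by omega) x).1 h)),
        neg_zero]

end Pool.Agent.R243.WN
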