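import Mathlib
import Pool.Agent.R243.WN.Meas

set_option autoImplicit false

namespace Pool.Agent.R243.WN

open Filter Topology MeasureTheory Set
open scoped ENNReal NNReal

/-- `r_N D_{2^N}` -/
noncomputable def gat (N : ℕ) (x : G) : ℝ := r N x * D (2 ^ N) x

/-- the atom, as a martingale -/
noncomputable def atom (N : ℕ) (k : ℕ) (x : G) : ℝ := if k ≤ N then 0 else gat N x

theorem D_sum_shift (N j : ℕ) (hj : j ≤ 2 ^ N) (x : G) :
    ∑ l ∈ Finset.range j, w (2 ^ N + l) x = r N x * D j x := by
  unfold D
  rw [Finset.mul_sum]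
  refine Finset.sum_congr rfl fun l hl => ?_
  have h1 := w_add_mul (m := N) (q := 1) (i := l) ((Finset.mem_range.1 hl).trans_le hj) x
  rw [mul_one, w_pow] at h1
  exact h1

theorem gat_eq_sum (N : ℕ) (x : G) : gat N x = ∑ l ∈ Finset.range (2 ^ N), w (2 ^ N + l) x :=
  (D_sum_shift N _ le_rfl x).symm

theorem gat_eq (N : ℕ) (x : G) : gat N x =
    (I (N + 1) (fun _ => false)).indicator (fun _ => (2:ℝ) ^ N) x -
      (I (N + 1) (flip N (fun _ => false))).indicator (fun _ => (2:ℝ) ^ N) x := by
  unfold gat
  rw [D_pow]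
  by_cases h : x ∈ I N (fun _ => false)
  · rw [indicator_of_mem h]
    cases hx : x N
    · have h1 : x ∈ I (N + 1) (fun _ => false) := by
        intro j hj
        rcases Nat.lt_succ_iff_lt_or_eq.1 hj with h1 | h1
        · exact h j h1
        · rw [h1, hx]
      have h2 : x ∉ I (N + 1) (flip N (fun _ => false)) := by
        intro h2
        have := h2 N (by omega)
        rw [flip_self, hx] at this
        simp at this
      rw [indicator_of_mem h1, indicator_of_notMem h2]
      simp [r, hx]
    · have h1 : x ∉ I (N + 1) (fun _ => false) := by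
        intro h2
        have := h2 N (by omega)
        rw [hx] at this
        simp at this
      have h2 : x ∈ I (N + 1) (flip N (fun _ => false)) := by
        intro j hj
        rcases Nat.lt_succ_iff_lt_or_eq.1 hj with h1 | h1
        · rw [flip_ne h1.ne]
          exact h j h1
        · rw [h1, flip_self, hx]
          simp
      rw [indicator_of_mem h2, indicator_of_notMem h1]
      simp [r, hx]
  · rw [indicator_of_notMem h]
    have h1 : x ∉ I (N + 1) (fun _ => false) := fun h2 => h fun j hj => h2 j (by omega)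
    have h2 : x ∉ I (N + 1) (flip N (fun _ => false)) := by
      intro h2
      refine h fun j hj => ?_
      rw [h2 j (by omega), flip_ne hj.ne]
    rw [indicator_of_notMem h1, indicator_of_notMem h2]
    simp

theorem I_mem_F (n : ℕ) (x : G) : MeasurableSet[F n] (I n x) :=
  MeasurableSpace.measurableSet_generateFrom ⟨x, rfl⟩

theorem gat_stronglyMeasurable {N k : ℕ} (h : N + 1 ≤ k) : StronglyMeasurable[F k] (gat N) := by
  have h1 : gat N = fun x => (I (N + 1) (fun _ => false)).indicator (fun _ => (2:ℝ) ^ N) x -
      (I (N + 1) (flip N (fun _ => false))).indicator (fun _ => (2:ℝ) ^ N) x := by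
    funext x
    exact gat_eq N x
  rw [h1]
  refine StronglyMeasurable.mono ?_ (F.mono h)
  refine StronglyMeasurable.sub ?_ ?_
  · exact stronglyMeasurable_const.indicator (I_mem_F _ _)
  · exact stronglyMeasurable_const.indicator (I_mem_F _ _)

theorem gat_measurable (N : ℕ) : Measurable (gat N) :=
  ((gat_stronglyMeasurable (le_refl (N + 1))).mono (F.le (N + 1))).measurable

theorem gat_integrable (N : ℕ) : Integrable (gat N) mu := by
  have h1 : gat N = fun x => (I (N + 1) (fun _ => false)).indicator (fun _ => (2:ℝ) ^ N) x -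
      (I (N + 1) (flip N (fun _ => false))).indicator (fun _ => (2:ℝ) ^ N) x := by
    funext x
    exact gat_eq N x
  rw [h1]
  exact ((integrable_const _).indicator (I_meas _ _)).sub
    ((integrable_const _).indicator (I_meas _ _))

/-- sets of `F_N` are invariant under flipping the `N`-th coordinate -/
theorem F_flip {N : ℕ} {s : Set G} (hs : MeasurableSet[F N] s) : flip N ⁻¹' s = s := by
  have h : F N ≤ MeasurableSpace.invariants (flip N) := by
    refine MeasurableSpace.generateFrom_le ?_
    rintro A ⟨x, rfl⟩
    rw [MeasurableSpace.measurableSet_invariants]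
    refine ⟨I_meas N x, ?_⟩
    ext y
    simp only [Set.mem_preimage, I, Set.mem_ofPred_eq]
    constructor
    · intro h j hj
      rw [← flip_ne hj.ne y]
      exact h j hj
    · intro h j hj
      rw [flip_ne hj.ne]
      exact h j hj
  exact (MeasurableSpace.measurableSet_invariants.1 (h s hs)).2

theorem D_flip (N : ℕ) (x : G) : D (2 ^ N) (flip N x) = D (2 ^ N) x := by
  unfold D
  refine Finset.sum_congr rfl fun l hl => ?_
  rw [w_flip, testBit_false (Finset.mem_range.1 hl)]
  simp

theorem gat_flip (N : ℕ) (x : G) : gat N (flip N x) = - gat N x := by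
  unfold gat
  rw [D_flip]
  have : r N (flip N x) = - r N x := by
    unfold r
    rw [flip_self]
    cases x N <;> simp
  rw [this]
  ring

theorem gat_setIntegral {N : ℕ} {s : Set G} (hs : MeasurableSet[F N] s) :
    ∫ x in s, gat N x ∂mu = 0 := by
  have hs' := F.le N s hs
  rw [← integral_indicator hs']
  refine integral_zero_of_flip N (fun x => ?_) ((gat_measurable N).indicator hs')
  have h1 : flip N x ∈ s ↔ x ∈ s := by
    rw [← Set.mem_preimage, F_flip hs]
  by_cases hx : x ∈ s
  · rw [indicator_of_mem hx, indicator_of_mem (h1.2 hx), gat_flip]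
  · rw [indicator_of_notMem hx, indicator_of_notMem (fun h => hx (h1.1 h)), neg_zero]

theorem atom_martingale (N : ℕ) : Martingale (atom N) F mu := by
  refine martingale_of_setIntegral_eq_succ ?_ ?_ ?_
  · intro k
    by_cases hk : k ≤ N
    · have : atom N k = fun _ => 0 := by
        funext x
        simp [atom, hk]
      rw [this]
      exact stronglyMeasurable_const
    · have : atom N k = gat N := by
        funext x
        simp [atom, hk]
      rw [this]
      exact gat_stronglyMeasurable (by omega)
  · intro k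
    by_cases hk : k ≤ N
    · have : atom N k = fun _ => 0 := by
        funext x
        simp [atom, hk]
      rw [this]
      exact integrable_zero _ _ _
    · have : atom N k = gat N := by
        funext x
        simp [atom, hk]
      rw [this]
      exact gat_integrable N
  · intro k s hs
    rcases lt_trichotomy k N with hk | hk | hk
    · simp [atom, hk.le, Nat.succ_le_of_lt hk]
    · subst hk
      have h1 : ∀ x, atom k k x = 0 := fun x => by simp [atom]
      have h2 : ∀ x, atom k (k + 1) x = gat k x := fun x => by simp [atom]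
      simp only [h1, h2]
      rw [gat_setIntegral hs]
      simp
    · have h1 : ∀ x, atom N k x = gat N x := fun x => by simp [atom, not_le.2 hk]
      have h2 : ∀ x, atom N (k + 1) x = gat N x := fun x => by
        simp [atom, not_le.2 (show N < k + 1 by omega)]
      simp only [h1, h2]

theorem atom_coef (N i : ℕ) :
    coef (atom N) i = if 2 ^ N ≤ i ∧ i < 2 ^ (N + 1) then 1 else 0 := by
  have h1 : ∫ x, gat N x * w i x ∂mu = if 2 ^ N ≤ i ∧ i < 2 ^ (N + 1) then 1 else 0 := by
    have h2 : ∀ x, gat N x * w i x = ∑ l ∈ Finset.range (2 ^ N), w (2 ^ N + l) x * w i x := by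
      intro x
      rw [gat_eq_sum, Finset.sum_mul]
    simp only [h2]
    rw [integral_finsetSum]
    · simp only [w_orth]
      split_ifs with h3
      · obtain ⟨h3, h4⟩ := h3
        obtain ⟨l, rfl⟩ := Nat.exists_eq_add_of_le h3
        rw [pow_succ] at h4
        rw [Finset.sum_eq_single l]
        · simp
        · intro b _ hb
          rw [if_neg (by omega)]
        · intro hl
          rw [Finset.mem_range] at hl
          omega
      · refine Finset.sum_eq_zero fun l hl => ?_
        rw [Finset.mem_range] at hl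
        rw [if_neg]
        intro h4
        apply h3
        rw [pow_succ]
        omega
    · intro l _
      refine Integrable.of_bound ((w_measurable _).mul (w_measurable _)).aestronglyMeasurable 1
        (Eventually.of_forall fun x => ?_)
      rw [Real.norm_eq_abs, abs_mul, w_abs, w_abs, one_mul]
  unfold coef
  refine Tendsto.limUnder_eq ?_
  refine tendsto_const_nhds.congr' ?_
  filter_upwards [eventually_gt_atTop N] with k hk
  rw [← h1]
  refine integral_congr_ae (Eventually.of_forall fun x => ?_)
  simp [atom, not_le.2 hk]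

theorem atom_S_low {N k : ℕ} (hk : k ≤ 2 ^ N) (x : G) : S (atom N) k x = 0 := by
  unfold S
  refine Finset.sum_eq_zero fun i hi => ?_
  rw [Finset.mem_range] at hi
  rw [atom_coef, if_neg (by omega), zero_mul]

theorem atom_S {N j : ℕ} (hj : j ≤ 2 ^ N) (x : G) :
    S (atom N) (2 ^ N + j) x = r N x * D j x := by
  have h0 := atom_S_low (N := N) le_rfl x
  unfold S at h0 ⊢
  rw [Finset.sum_range_add, h0, zero_add, ← D_sum_shift N j hj]
  refine Finset.sum_congr rfl fun l hl => ?_
  rw [Finset.mem_range] at hl
  rw [atom_coef, if_pos, one_mul]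
  rw [pow_succ]
  omega

/-- the un-normalised means `Σ_{k=1}^n q_{n-k} S_k f` -/
noncomputable def nor (q : ℕ → ℝ) (f : ℕ → G → ℝ) (n : ℕ) (x : G) : ℝ :=
  ∑ k ∈ Finset.Icc 1 n, q (n - k) * S f k x

theorem nor_atom (q : ℕ → ℝ) (N : ℕ) (x : G) :
    nor q (atom N) (2 ^ (N + 1)) x = r N x * ∑ j ∈ Finset.range (2 ^ N), q j * D (2 ^ N - j) x := by
  have h1 : nor q (atom N) (2 ^ (N + 1)) x =
      ∑ j ∈ Finset.range (2 ^ (N + 1)), q j * S (atom N) (2 ^ (N + 1) - j) x := by
    unfold nor
    refine Finset.sum_bij' (fun k _ => 2 ^ (N + 1) - k) (fun j _ => 2 ^ (N + 1) - j) ?_ ?_ ?_ ?_ ?_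
    · intro k hk
      rw [Finset.mem_Icc] at hk
      rw [Finset.mem_range]
      have := Nat.two_pow_pos (N + 1)
      omega
    · intro j hj
      rw [Finset.mem_range] at hj
      rw [Finset.mem_Icc]
      omega
    · intro k hk
      rw [Finset.mem_Icc] at hk
      exact Nat.sub_sub_self hk.2
    · intro j hj
      rw [Finset.mem_range] at hj
      exact Nat.sub_sub_self hj.le
    · intro k hk
      rw [Finset.mem_Icc] at hk
      rw [Nat.sub_sub_self hk.2]
  have h2 : 2 ^ (N + 1) = 2 ^ N + 2 ^ N := by ring
  have h0 := Nat.two_pow_pos N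
  have h3 : ∑ j ∈ Finset.range (2 ^ (N + 1)), q j * S (atom N) (2 ^ (N + 1) - j) x =
      ∑ j ∈ Finset.range (2 ^ N), q j * S (atom N) (2 ^ (N + 1) - j) x := by
    symm
    refine Finset.sum_subset (Finset.range_mono (by omega)) fun j _ hj => ?_
    rw [Finset.mem_range, not_lt] at hj
    rw [atom_S_low (by omega), mul_zero]
  rw [h1, h3, Finset.mul_sum]
  refine Finset.sum_congr rfl fun j hj => ?_
  rw [Finset.mem_range] at hj
  have h4 : 2 ^ (N + 1) - j = 2 ^ N + (2 ^ N - j) := by omega
  rw [h4, atom_S (by omega)]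
  ring

/-- the block sum -/
noncomputable def Rs (q : ℕ → ℝ) (N s : ℕ) (x : G) : ℝ :=
  ∑ b ∈ Finset.range (2 ^ (N - (s + 2))), w (2 ^ (s + 2) * b) x * blk q s b

theorem nor_atom_B (q : ℕ → ℝ) {N s : ℕ} (hs : s + 2 ≤ N) {x : G} (hx : x ∈ B s) :
    |nor q (atom N) (2 ^ (N + 1)) x| = |Rs q N s x| := by
  have h1 : 2 ^ (s + 2) * 2 ^ (N - (s + 2)) = 2 ^ N := by
    rw [← pow_add]
    congr 1
    omega
  have h2 : D (2 ^ N) x = 0 := by
    rw [← h1]
    exact D_mul_zero (D_four hx.1 hx.2.1 hx.2.2) _
  have h3 : ∑ j ∈ Finset.range (2 ^ N), q j * D (2 ^ N - j) x =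
      - w (2 ^ N - 1) x * ∑ j ∈ Finset.range (2 ^ N), q j * D j x := by
    rw [Finset.mul_sum]
    refine Finset.sum_congr rfl fun j hj => ?_
    rw [D_reflect (Finset.mem_range.1 hj).le, h2]
    ring
  have h4 : ∑ j ∈ Finset.range (2 ^ N), q j * D j x = Rs q N s x := by
    unfold Rs
    rw [← block_sum q hx, h1]
  rw [nor_atom, h3, h4, abs_mul, abs_mul, abs_neg, w_abs, one_mul]
  have h5 : |r N x| = 1 := by
    unfold r
    split_ifs <;> simp
  rw [h5, one_mul]

end Pool.Agent.R243.WN
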