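import Mathlib
import Pool.Agent.R243.WN.Atom

set_option autoImplicit false

namespace Pool.Agent.R243.WN

open Filter Topology MeasureTheory Set
open scoped ENNReal NNReal

theorem Rs_measurable (q : ℕ → ℝ) (N s : ℕ) : Measurable (Rs q N s) := by
  unfold Rs
  exact Finset.measurable_sum _ fun b _ => (w_measurable _).mul_const _

theorem Rs_abs_le {q : ℕ → ℝ} (hq : Antitone q) (hpos : ∀ j, 0 ≤ q j) (N s : ℕ) (x : G) :
    |Rs q N s x| ≤ 2 ^ s * ∑ i ∈ Finset.range (2 ^ (s + 1)), q i := by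
  refine le_trans ?_ (sum_blk_le hq hpos s (2 ^ (N - (s + 2))))
  unfold Rs
  refine (Finset.abs_sum_le_sum_abs _ _).trans (Finset.sum_le_sum fun b _ => ?_)
  rw [abs_mul, w_abs, one_mul, abs_of_nonneg (blk_nonneg hq s b)]

theorem Rs_integral (q : ℕ → ℝ) (N s : ℕ) :
    ∫ x in B s, Rs q N s x ∂mu = (2⁻¹ : ℝ) ^ (s + 2) * blk q s 0 := by
  unfold Rs
  rw [integral_finsetSum]
  · simp only [integral_mul_const, B_integral_w]
    rw [Finset.sum_eq_single 0]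
    · simp
    · intro b _ hb
      simp [hb]
    · intro h
      exact absurd (Finset.mem_range.2 (Nat.two_pow_pos _)) h
  · intro b _
    exact ((w_integrable _ _).mul_const _)

/-- the lower bound on one piece -/
theorem piece {q : ℕ → ℝ} (hq : Antitone q) (hpos : ∀ j, 0 ≤ q j) {p : ℝ} (hp0 : 0 < p)
    (hp1 : p < 1) (N s : ℕ) {E e : ℝ} (hE : 0 < E)
    (hEq : 2 ^ s * ∑ i ∈ Finset.range (2 ^ (s + 1)), q i ≤ E) (he : e ≤ blk q s 0) :
    ENNReal.ofReal (E ^ (p - 1) * ((2⁻¹ : ℝ) ^ (s + 2) * e)) ≤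
      ∫⁻ x in B s, ENNReal.ofReal (|Rs q N s x| ^ p) ∂mu := by
  have hbd : ∀ x, |Rs q N s x| ≤ E := fun x => (Rs_abs_le hq hpos N s x).trans hEq
  have hpt : ∀ x, E ^ (p - 1) * Rs q N s x ≤ |Rs q N s x| ^ p := by
    intro x
    rcases le_or_gt (Rs q N s x) 0 with h | h
    · have h1 : 0 < E ^ (p - 1) := Real.rpow_pos_of_pos hE _
      have h2 : 0 ≤ |Rs q N s x| ^ p := Real.rpow_nonneg (abs_nonneg _) _
      nlinarith
    · have h1 := hbd x
      rw [abs_of_pos h] at h1 ⊢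
      have h2 : Rs q N s x ^ p = Rs q N s x ^ (p - 1) * Rs q N s x := by
        rw [← Real.rpow_add_one h.ne']
        congr 1
        ring
      rw [h2]
      refine mul_le_mul_of_nonneg_right ?_ h.le
      exact Real.rpow_le_rpow_of_nonpos h h1 (by linarith)
  have hm : Measurable (fun x => |Rs q N s x| ^ p) :=
    ((Rs_measurable q N s).abs).pow_const p
  have hint : Integrable (fun x => |Rs q N s x| ^ p) (mu.restrict (B s)) := by
    refine Integrable.of_bound hm.aestronglyMeasurable (E ^ p) (Eventually.of_forall fun x => ?_)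
    rw [Real.norm_eq_abs, abs_of_nonneg (Real.rpow_nonneg (abs_nonneg _) _)]
    exact Real.rpow_le_rpow (abs_nonneg _) (hbd x) hp0.le
  have hint2 : Integrable (fun x => E ^ (p - 1) * Rs q N s x) (mu.restrict (B s)) := by
    refine Integrable.const_mul ?_ _
    exact Integrable.of_bound (Rs_measurable q N s).aestronglyMeasurable E
      (Eventually.of_forall fun x => by rw [Real.norm_eq_abs]; exact hbd x)
  rw [← ofReal_integral_eq_lintegral_ofReal hint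
    (Eventually.of_forall fun x => Real.rpow_nonneg (abs_nonneg _) _)]
  apply ENNReal.ofReal_le_ofReal
  calc E ^ (p - 1) * ((2⁻¹ : ℝ) ^ (s + 2) * e) ≤ E ^ (p - 1) * ((2⁻¹ : ℝ) ^ (s + 2) * blk q s 0) := by
        have h1 : 0 < E ^ (p - 1) := Real.rpow_pos_of_pos hE _
        gcongr
    _ = ∫ x in B s, E ^ (p - 1) * Rs q N s x ∂mu := by
        rw [integral_const_mul, Rs_integral]
    _ ≤ _ := integral_mono hint2 hint hpt

theorem B_disjoint {s t : ℕ} (h : s < t) : Disjoint (B s) (B t) := by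
  rw [Set.disjoint_left]
  rintro x ⟨_, h1, _⟩ ⟨h2, _, _⟩
  rw [h2 s h] at h1
  exact Bool.false_ne_true h1

/-- weights to which the argument applies -/
structure Good (α : ℝ) (q : ℕ → ℝ) : Prop where
  anti : Antitone q
  nonneg : ∀ j, 0 ≤ q j
  lower : ∃ c : ℝ, 0 < c ∧ ∀ s : ℕ, c * ((2:ℝ) ^ s) ^ (α - 1) ≤ q (2 ^ s)
  upper : ∃ C : ℝ, 0 < C ∧ ∀ s : ℕ, ∑ i ∈ Finset.range (2 ^ (s + 1)), q i ≤ C * ((2:ℝ) ^ s) ^ α
  gap : ∃ κ : ℝ, 0 < κ ∧ ∀ s : ℕ, ∀ i ≤ 2 ^ s, q (2 ^ (s + 1) + i) ≤ (1 - κ) * q i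

theorem nor_lower {α : ℝ} (hα : 0 < α) {q : ℕ → ℝ} (hq : Good α q) :
    ∃ c : ℝ, 0 < c ∧ ∀ N : ℕ, ENNReal.ofReal (c * (N - 1)) ≤
      ∫⁻ x, ‖nor q (atom N) (2 ^ (N + 1)) x‖ₑ ^ (1 / (1 + α)) ∂mu := by
  obtain ⟨c1, hc1, hlow⟩ := hq.lower
  obtain ⟨C1, hC1, hup⟩ := hq.upper
  obtain ⟨κ, hκ, hgap⟩ := hq.gap
  set p : ℝ := 1 / (1 + α) with hp
  have hp0 : 0 < p := by positivity
  have hp1 : p < 1 := by
    rw [hp, div_lt_one (by positivity)]
    linarith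
  set c : ℝ := C1 ^ (p - 1) * (κ * c1 / 16) with hc
  have hcpos : 0 < c := by positivity
  refine ⟨c, hcpos, fun N => ?_⟩
  have hpiece : ∀ s, ENNReal.ofReal c ≤ ∫⁻ x in B s, ENNReal.ofReal (|Rs q N s x| ^ p) ∂mu := by
    intro s
    have h2s : (0:ℝ) < 2 ^ s := by positivity
    have hE : 0 < C1 * ((2:ℝ) ^ s) ^ (1 + α) := by positivity
    have h1 := piece hq.anti hq.nonneg hp0 hp1 N s (E := C1 * ((2:ℝ) ^ s) ^ (1 + α))
      (e := κ * c1 / 4 * ((2:ℝ) ^ s) ^ (1 + α)) hE ?_ ?_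
    · refine le_trans (ENNReal.ofReal_le_ofReal ?_) h1
      apply le_of_eq
      have h3 : (C1 * ((2:ℝ) ^ s) ^ (1 + α)) ^ (p - 1) =
          C1 ^ (p - 1) * (((2:ℝ) ^ s) ^ (1 + α)) ^ (p - 1) :=
        Real.mul_rpow hC1.le (by positivity)
      have h4 : (((2:ℝ) ^ s) ^ (1 + α)) ^ (p - 1) * ((2:ℝ) ^ s) ^ (1 + α) = 2 ^ s := by
        rw [← Real.rpow_mul h2s.le, ← Real.rpow_add h2s]
        have : (1 + α) * (p - 1) + (1 + α) = 1 := by
          rw [hp]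
          field_simp
          ring
        rw [this, Real.rpow_one]
      have h5 : (2⁻¹ : ℝ) ^ (s + 2) * 2 ^ s = 1 / 4 := by
        rw [pow_add, inv_pow, inv_pow]
        field_simp
        norm_num
      rw [h3, hc]
      calc C1 ^ (p - 1) * (κ * c1 / 16) = C1 ^ (p - 1) * (κ * c1 / 4 * (1 / 4)) := by ring
        _ = C1 ^ (p - 1) * (κ * c1 / 4 * ((2⁻¹ : ℝ) ^ (s + 2) * 2 ^ s)) := by rw [h5]
        _ = C1 ^ (p - 1) * (κ * c1 / 4 * ((2⁻¹ : ℝ) ^ (s + 2) *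
              ((((2:ℝ) ^ s) ^ (1 + α)) ^ (p - 1) * ((2:ℝ) ^ s) ^ (1 + α)))) := by rw [h4]
        _ = _ := by ring
    · calc 2 ^ s * ∑ i ∈ Finset.range (2 ^ (s + 1)), q i ≤ 2 ^ s * (C1 * ((2:ℝ) ^ s) ^ α) := by
            gcongr
            exact hup s
        _ = C1 * ((2:ℝ) ^ s) ^ (1 + α) := by
            rw [Real.rpow_add h2s, Real.rpow_one]
            ring
    · refine le_trans ?_ (blk_zero_ge hq.anti hq.nonneg hκ.le s (hgap s))
      have h2 := hlow s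
      calc κ * c1 / 4 * ((2:ℝ) ^ s) ^ (1 + α) =
            κ * (c1 * ((2:ℝ) ^ s) ^ (α - 1)) * (2 ^ s * 2 ^ s / 4) := by
            have : ((2:ℝ) ^ s) ^ (1 + α) = ((2:ℝ) ^ s) ^ (α - 1) * (2 ^ s * 2 ^ s) := by
              rw [show 1 + α = (α - 1) + 2 by ring, Real.rpow_add h2s, Real.rpow_two]
              ring
            rw [this]
            ring
        _ ≤ κ * q (2 ^ s) * (2 ^ s * 2 ^ s / 4) := by gcongr
  have heq : ∀ s ∈ Finset.range (N - 1), ∫⁻ x in B s, ENNReal.ofReal (|Rs q N s x| ^ p) ∂mu =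
      ∫⁻ x in B s, ‖nor q (atom N) (2 ^ (N + 1)) x‖ₑ ^ p ∂mu := by
    intro s hs
    rw [Finset.mem_range] at hs
    refine setLIntegral_congr_fun (B_measurable s) fun x hx => ?_
    rw [← nor_atom_B q (by omega) hx, Real.enorm_eq_ofReal_abs,
      ENNReal.ofReal_rpow_of_nonneg (abs_nonneg _) hp0.le]
  calc ENNReal.ofReal (c * (N - 1)) ≤ ∑ s ∈ Finset.range (N - 1), ENNReal.ofReal c := by
        rw [Finset.sum_const, Finset.card_range, nsmul_eq_mul]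
        rcases Nat.eq_zero_or_pos N with h | h
        · subst h
          rw [ENNReal.ofReal_of_nonpos]
          · simp
          · push_cast
            nlinarith
        · rw [mul_comm, ENNReal.ofReal_mul, ← Nat.cast_one, ← Nat.cast_sub h, ENNReal.ofReal_natCast]
          have : (1:ℝ) ≤ N := by exact_mod_cast h
          linarith
    _ ≤ ∑ s ∈ Finset.range (N - 1), ∫⁻ x in B s, ‖nor q (atom N) (2 ^ (N + 1)) x‖ₑ ^ p ∂mu := by
        refine Finset.sum_le_sum fun s hs => ?_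
        rw [← heq s hs]
        exact hpiece s
    _ = ∫⁻ x in ⋃ s ∈ Finset.range (N - 1), B s, ‖nor q (atom N) (2 ^ (N + 1)) x‖ₑ ^ p ∂mu := by
        rw [lintegral_biUnion_finset]
        · intro s _ t _ hst
          rcases lt_or_gt_of_ne hst with h | h
          · exact B_disjoint h
          · exact (B_disjoint h).symm
        · intro s _
          exact B_measurable s
    _ ≤ _ := setLIntegral_le_lintegral _ _

theorem atom_norm {α : ℝ} (hα : 0 < α) (N : ℕ) :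
    hpNorm (1 / (1 + α)) (atom N) = ENNReal.ofReal (((2:ℝ) ^ N) ^ (-α)) := by
  have h1 : ∀ x, (⨆ n, ‖atom N n x‖ₑ) = (I N (fun _ => false)).indicator (fun _ => (2:ℝ≥0∞) ^ N) x := by
    intro x
    have h2 : (⨆ n, ‖atom N n x‖ₑ) = ‖gat N x‖ₑ := by
      refine le_antisymm (iSup_le fun n => ?_) ?_
      · unfold atom
        split_ifs
        · simp
        · exact le_rfl
      · refine le_trans (le_of_eq ?_) (le_iSup _ (N + 1))
        simp [atom]
    rw [h2]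
    unfold gat
    rw [D_pow]
    have h5 : ‖r N x‖ₑ = 1 := by
      unfold r
      split_ifs <;> simp
    rw [enorm_mul, h5, one_mul]
    by_cases hx : x ∈ I N (fun _ => false)
    · rw [indicator_of_mem hx, indicator_of_mem hx, Real.enorm_eq_ofReal_abs,
        abs_of_pos (by positivity), ENNReal.ofReal_pow (by norm_num)]
      norm_num
    · rw [indicator_of_notMem hx, indicator_of_notMem hx]
      simp
  set p : ℝ := 1 / (1 + α) with hp
  have hp0 : 0 < p := by positivity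
  unfold hpNorm
  simp only [h1]
  have h3 : ∀ x, ((I N (fun _ => false)).indicator (fun _ => (2:ℝ≥0∞) ^ N) x) ^ p =
      (I N (fun _ => false)).indicator (fun _ => ((2:ℝ≥0∞) ^ N) ^ p) x := by
    intro x
    by_cases hx : x ∈ I N (fun _ => false)
    · rw [indicator_of_mem hx, indicator_of_mem hx]
    · rw [indicator_of_notMem hx, indicator_of_notMem hx, ENNReal.zero_rpow_of_pos hp0]
  simp only [h3]
  rw [lintegral_indicator (I_meas _ _), setLIntegral_const, mu_I]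
  have h4 : ((2:ℝ≥0∞) ^ N) = ENNReal.ofReal ((2:ℝ) ^ N) := by
    rw [ENNReal.ofReal_pow (by norm_num)]
    norm_num
  have h5 : ((2⁻¹:ℝ≥0∞) ^ N) = ENNReal.ofReal ((2⁻¹:ℝ) ^ N) := by
    rw [ENNReal.ofReal_pow (by norm_num), ENNReal.ofReal_inv_of_pos (by norm_num)]
    norm_num
  rw [h4, h5, ENNReal.ofReal_rpow_of_nonneg (by positivity) hp0.le,
    ← ENNReal.ofReal_mul (by positivity), ENNReal.ofReal_rpow_of_nonneg (by positivity)
      (by positivity)]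
  congr 1
  have h2s : (0:ℝ) < 2 ^ N := by positivity
  rw [inv_pow, ← Real.rpow_neg_one, ← Real.rpow_add h2s, ← Real.rpow_mul h2s.le]
  congr 1
  rw [hp]
  field_simp
  ring

/-- the conclusion: unboundedness -/
theorem unbounded {α : ℝ} (hα : 0 < α) {q : ℕ → ℝ} (hq : Good α q) {Z : ℕ → ℝ}
    {C2 : ℝ} (hZ0 : ∀ N : ℕ, 0 < Z (2 ^ (N + 1))) (hZ : ∀ N : ℕ, Z (2 ^ (N + 1)) ≤ C2 * ((2:ℝ) ^ N) ^ α) (C : ℝ≥0) :
    ∃ N : ℕ, C * hpNorm (1 / (1 + α)) (atom N) <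
      pNorm (1 / (1 + α)) (fun x => (Z (2 ^ (N + 1)))⁻¹ * nor q (atom N) (2 ^ (N + 1)) x) := by
  obtain ⟨c, hc, hlow⟩ := nor_lower hα hq
  set p : ℝ := 1 / (1 + α) with hp
  have hp0 : 0 < p := by positivity
  have hC2 : 0 < C2 := by
    have h1 := hZ 0
    have h2 := hZ0 0
    simp at h1 h2
    linarith
  have hA : 0 ≤ (C * C2 : ℝ) := mul_nonneg C.2 hC2.le
  obtain ⟨N, hN⟩ := exists_nat_gt (((C * C2 : ℝ) ^ p + 1) / c + 1)
  refine ⟨N, ?_⟩
  have hN2 : (C * C2 : ℝ) ^ p + 1 < c * (N - 1) := by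
    have : ((C * C2 : ℝ) ^ p + 1) / c < N - 1 := by linarith
    rw [div_lt_iff₀ hc] at this
    linarith
  have hN1 : 0 < c * ((N:ℝ) - 1) := by
    have : 0 ≤ (C * C2 : ℝ) ^ p := Real.rpow_nonneg hA _
    linarith
  have h2s : (0:ℝ) < 2 ^ N := by positivity
  rw [atom_norm hα]
  have h1 : pNorm p (fun x => (Z (2 ^ (N + 1)))⁻¹ * nor q (atom N) (2 ^ (N + 1)) x) =
      ENNReal.ofReal ((Z (2 ^ (N + 1)))⁻¹) *
        (∫⁻ x, ‖nor q (atom N) (2 ^ (N + 1)) x‖ₑ ^ p ∂mu) ^ (1 / p) := by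
    unfold pNorm
    have h2 : ∀ x, ‖(Z (2 ^ (N + 1)))⁻¹ * nor q (atom N) (2 ^ (N + 1)) x‖ₑ ^ p =
        (ENNReal.ofReal ((Z (2 ^ (N + 1)))⁻¹)) ^ p * ‖nor q (atom N) (2 ^ (N + 1)) x‖ₑ ^ p := by
      intro x
      rw [enorm_mul, ENNReal.mul_rpow_of_nonneg _ _ hp0.le, Real.enorm_eq_ofReal_abs,
        abs_of_pos (inv_pos.2 (hZ0 _))]
    simp only [h2]
    rw [lintegral_const_mul']
    · rw [ENNReal.mul_rpow_of_nonneg _ _ (by positivity), ← ENNReal.rpow_mul]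
      rw [mul_one_div_cancel hp0.ne', ENNReal.rpow_one]
    · exact ENNReal.rpow_ne_top_of_nonneg hp0.le ENNReal.ofReal_ne_top
  rw [h1]
  have h3 : ENNReal.ofReal ((c * ((N:ℝ) - 1)) ^ (1 / p)) ≤
      (∫⁻ x, ‖nor q (atom N) (2 ^ (N + 1)) x‖ₑ ^ p ∂mu) ^ (1 / p) := by
    rw [← ENNReal.ofReal_rpow_of_nonneg hN1.le (by positivity)]
    exact ENNReal.rpow_le_rpow (hlow N) (by positivity)
  refine lt_of_lt_of_le ?_ (mul_le_mul' le_rfl h3)
  rw [← ENNReal.ofReal_mul (by have := hZ0 N; positivity)]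
  have h4 : (C : ℝ≥0∞) = ENNReal.ofReal (C : ℝ) := (ENNReal.ofReal_coe_nnreal).symm
  rw [h4, ← ENNReal.ofReal_mul (NNReal.coe_nonneg C)]
  have hZN := hZ N
  have hZ0N := hZ0 N
  have h5 : (C2 * ((2:ℝ) ^ N) ^ α)⁻¹ ≤ (Z (2 ^ (N + 1)))⁻¹ := inv_anti₀ hZ0N hZN
  have h6 : (C * C2 : ℝ) < (c * ((N:ℝ) - 1)) ^ (1 / p) := by
    have h7 : (C * C2 : ℝ) = ((C * C2 : ℝ) ^ p) ^ (1 / p) := by
      rw [← Real.rpow_mul hA, mul_one_div_cancel hp0.ne', Real.rpow_one]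
    rw [h7]
    exact Real.rpow_lt_rpow (Real.rpow_nonneg hA _) (by linarith) (by positivity)
  have h7 : 0 < (c * ((N:ℝ) - 1)) ^ (1 / p) := by positivity
  have h8 : 0 < ((2:ℝ) ^ N) ^ α := by positivity
  rw [ENNReal.ofReal_lt_ofReal_iff (by positivity)]
  calc (C:ℝ) * ((2:ℝ) ^ N) ^ (-α) = (C2 * ((2:ℝ) ^ N) ^ α)⁻¹ * (C * C2) := by
        rw [Real.rpow_neg h2s.le]
        field_simp
    _ < (C2 * ((2:ℝ) ^ N) ^ α)⁻¹ * (c * ((N:ℝ) - 1)) ^ (1 / p) := by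
        have : 0 < (C2 * ((2:ℝ) ^ N) ^ α)⁻¹ := by positivity
        gcongr
    _ ≤ _ := by gcongr

end Pool.Agent.R243.WN
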