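import Mathlib
import Pool.Agent.R243.WN.Est

set_option autoImplicit false

namespace Pool.Agent.R243.WN

open Filter Topology MeasureTheory Set
open scoped ENNReal NNReal

theorem sum_pow_le {α : ℝ} (h0 : 0 < α) (h1 : α < 1) (n : ℕ) :
    ∑ i ∈ Finset.range n, ((i:ℝ) + 1) ^ (α - 1) ≤ (n:ℝ) ^ α / α := by
  induction n with
  | zero => simp [Real.zero_rpow h0.ne']
  | succ n ih =>
    rw [Finset.sum_range_succ]
    have hn : (0:ℝ) < (n:ℝ) + 1 := by positivity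
    have h2 : (n:ℝ) ^ α ≤ ((n:ℝ) + 1) ^ α - α * ((n:ℝ) + 1) ^ (α - 1) := by
      have h3 := rpow_one_add_le_one_add_mul_self (s := -(1 / ((n:ℝ) + 1))) (p := α)
        (by
          have : 1 / ((n:ℝ) + 1) ≤ 1 := by
            rw [div_le_one hn]
            linarith [(Nat.cast_nonneg n : (0:ℝ) ≤ n)]
          linarith) h0.le h1.le
      have h4 : (n:ℝ) = ((n:ℝ) + 1) * (1 + -(1 / ((n:ℝ) + 1))) := by
        field_simp
        ring
      have h5 : (0:ℝ) ≤ 1 + -(1 / ((n:ℝ) + 1)) := by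
        have : 1 / ((n:ℝ) + 1) ≤ 1 := by
          rw [div_le_one hn]
          linarith [(Nat.cast_nonneg n : (0:ℝ) ≤ n)]
        linarith
      calc (n:ℝ) ^ α = (((n:ℝ) + 1) * (1 + -(1 / ((n:ℝ) + 1)))) ^ α := by rw [← h4]
        _ = ((n:ℝ) + 1) ^ α * (1 + -(1 / ((n:ℝ) + 1))) ^ α := Real.mul_rpow hn.le h5
        _ ≤ ((n:ℝ) + 1) ^ α * (1 + α * -(1 / ((n:ℝ) + 1))) := by
            gcongr
        _ = _ := by
            rw [Real.rpow_sub_one hn.ne']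
            field_simp
            ring
    push_cast
    rw [le_div_iff₀ h0] at ih ⊢
    nlinarith

/-- a sufficient condition for good weights -/
theorem good_of {α : ℝ} (h0 : 0 < α) (h1 : α < 1) {v : ℕ → ℝ} (hv : Antitone v) {c : ℝ} (hc : 0 < c)
    (hcv : ∀ n, c ≤ v n) : Good α (fun n => v n * ((n:ℝ) + 1) ^ (α - 1)) := by
  have hv0 : ∀ n, 0 < v n := fun n => hc.trans_le (hcv n)
  have hpow : ∀ n : ℕ, 0 < ((n:ℝ) + 1) ^ (α - 1) := fun n => by positivity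
  refine ⟨?_, fun j => (mul_pos (hv0 j) (hpow j)).le, ⟨c * 2 ^ (α - 1), by positivity, ?_⟩,
    ⟨v 0 * 2 ^ α / α, by have := hv0 0; positivity, ?_⟩, ⟨1 - 2 ^ (α - 1), ?_, ?_⟩⟩
  · intro a b hab
    have h2 : ((b:ℝ) + 1) ^ (α - 1) ≤ ((a:ℝ) + 1) ^ (α - 1) := by
      refine Real.rpow_le_rpow_of_nonpos (by positivity) ?_ (by linarith)
      have : (a:ℝ) ≤ b := by exact_mod_cast hab
      linarith
    exact mul_le_mul (hv hab) h2 (hpow b).le (hv0 a).le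
  · intro s
    have h2s : (1:ℝ) ≤ 2 ^ s := one_le_pow₀ (by norm_num)
    push_cast
    have h2 : ((2:ℝ) * 2 ^ s) ^ (α - 1) ≤ ((2:ℝ) ^ s + 1) ^ (α - 1) := by
      refine Real.rpow_le_rpow_of_nonpos (by positivity) ?_ (by linarith)
      linarith
    rw [Real.mul_rpow (by norm_num) (by positivity)] at h2
    have h3 := hcv (2 ^ s)
    calc c * 2 ^ (α - 1) * ((2:ℝ) ^ s) ^ (α - 1) = c * (2 ^ (α - 1) * ((2:ℝ) ^ s) ^ (α - 1)) := by ring
      _ ≤ v (2 ^ s) * ((2:ℝ) ^ s + 1) ^ (α - 1) := by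
          apply mul_le_mul h3 h2 (by positivity) (hv0 _).le
  · intro s
    have h2 := sum_pow_le h0 h1 (2 ^ (s + 1))
    have h3 : ((2 ^ (s + 1) : ℕ) : ℝ) ^ α = 2 ^ α * ((2:ℝ) ^ s) ^ α := by
      push_cast
      rw [pow_succ, mul_comm, Real.mul_rpow (by norm_num) (by positivity)]
    rw [h3] at h2
    calc ∑ i ∈ Finset.range (2 ^ (s + 1)), v i * ((i:ℝ) + 1) ^ (α - 1) ≤
          ∑ i ∈ Finset.range (2 ^ (s + 1)), v 0 * ((i:ℝ) + 1) ^ (α - 1) := by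
          refine Finset.sum_le_sum fun i _ => ?_
          exact mul_le_mul_of_nonneg_right (hv (Nat.zero_le i)) (hpow i).le
      _ = v 0 * ∑ i ∈ Finset.range (2 ^ (s + 1)), ((i:ℝ) + 1) ^ (α - 1) := by rw [Finset.mul_sum]
      _ ≤ v 0 * (2 ^ α * ((2:ℝ) ^ s) ^ α / α) := mul_le_mul_of_nonneg_left h2 (hv0 0).le
      _ = _ := by ring
  · have : (2:ℝ) ^ (α - 1) < 1 := Real.rpow_lt_one_of_one_lt_of_neg (by norm_num) (by linarith)
    linarith
  · intro s i hi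
    have h2 : ((2:ℝ) * ((i:ℝ) + 1)) ≤ ((2 ^ (s + 1) + i : ℕ) : ℝ) + 1 := by
      have h3 : 2 * (i + 1) ≤ 2 ^ (s + 1) + i + 1 := by
        have := Nat.one_le_two_pow (n := s)
        rw [pow_succ]
        omega
      exact_mod_cast h3
    have h4 : (((2 ^ (s + 1) + i : ℕ) : ℝ) + 1) ^ (α - 1) ≤ (2 * ((i:ℝ) + 1)) ^ (α - 1) :=
      Real.rpow_le_rpow_of_nonpos (by positivity) h2 (by linarith)
    rw [Real.mul_rpow (by norm_num) (by positivity)] at h4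
    have h5 : v (2 ^ (s + 1) + i) ≤ v i := hv (by omega)
    calc v (2 ^ (s + 1) + i) * (((2 ^ (s + 1) + i : ℕ) : ℝ) + 1) ^ (α - 1) ≤
          v i * (2 ^ (α - 1) * ((i:ℝ) + 1) ^ (α - 1)) := by
          apply mul_le_mul h5 h4 (by positivity) (hv0 _).le
      _ = _ := by ring

theorem good_U {α : ℝ} (h0 : 0 < α) (h1 : α < 1) : Good α (fun n => ((n:ℝ) + 1) ^ (α - 1)) := by
  have := good_of h0 h1 (v := fun _ => 1) antitone_const one_pos (fun _ => le_rfl)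
  simpa only [one_mul] using this

/-- Cesaro numbers `A_n^β = (β+1)...(β+n)/n!` -/
noncomputable def A (β : ℝ) (n : ℕ) : ℝ := (∏ j ∈ Finset.range n, (β + (j + 1))) / n.factorial

theorem A_succ (β : ℝ) (n : ℕ) : A β (n + 1) = A β n * ((β + (n + 1)) / (n + 1)) := by
  unfold A
  rw [Finset.prod_range_succ, Nat.factorial_succ]
  push_cast
  have : (n.factorial : ℝ) ≠ 0 := by exact_mod_cast n.factorial_ne_zero
  have h2 : ((n:ℝ) + 1) ≠ 0 := by positivity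
  field_simp

theorem A_pos {β : ℝ} (h : -1 < β) (n : ℕ) : 0 < A β n := by
  unfold A
  have : ∀ j : ℕ, 0 < β + (j + 1) := fun j => by
    have : (0:ℝ) ≤ j := Nat.cast_nonneg j
    linarith
  have h2 : 0 < ∏ j ∈ Finset.range n, (β + ((j:ℝ) + 1)) := Finset.prod_pos fun j _ => this j
  positivity

/-- `v_n = A_n^{α-1} (n+1)^{1-α}` -/
noncomputable def vC (α : ℝ) (n : ℕ) : ℝ := A (α - 1) n * ((n:ℝ) + 1) ^ (1 - α)

theorem vC_anti {α : ℝ} (h0 : 0 < α) (h1 : α < 1) : Antitone (vC α) := by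
  refine antitone_nat_of_succ_le fun n => ?_
  unfold vC
  rw [A_succ]
  push_cast
  have hA := A_pos (β := α - 1) (by linarith) n
  have hn : (0:ℝ) < (n:ℝ) + 1 := by positivity
  have hx : (0:ℝ) < 1 / ((n:ℝ) + 1) := by positivity
  have h2 := rpow_one_add_le_one_add_mul_self (s := 1 / ((n:ℝ) + 1)) (p := 1 - α)
    (by linarith) (by linarith) (by linarith)
  have h3 : ((n:ℝ) + 1 + 1) ^ (1 - α) = ((n:ℝ) + 1) ^ (1 - α) * (1 + 1 / ((n:ℝ) + 1)) ^ (1 - α) := by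
    rw [← Real.mul_rpow hn.le (by positivity)]
    congr 1
    field_simp
  have h4 : (α - 1 + ((n:ℝ) + 1)) / ((n:ℝ) + 1) = 1 - (1 - α) * (1 / ((n:ℝ) + 1)) := by
    field_simp
    ring
  have h5 : (0:ℝ) ≤ 1 - (1 - α) * (1 / ((n:ℝ) + 1)) := by
    rw [← h4]
    have : (0:ℝ) ≤ n := Nat.cast_nonneg n
    apply div_nonneg _ hn.le
    linarith
  rw [h3, h4]
  have h6 : (1 - (1 - α) * (1 / ((n:ℝ) + 1))) * (1 + 1 / ((n:ℝ) + 1)) ^ (1 - α) ≤ 1 := by
    calc (1 - (1 - α) * (1 / ((n:ℝ) + 1))) * (1 + 1 / ((n:ℝ) + 1)) ^ (1 - α) ≤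
          (1 - (1 - α) * (1 / ((n:ℝ) + 1))) * (1 + (1 - α) * (1 / ((n:ℝ) + 1))) :=
          mul_le_mul_of_nonneg_left h2 h5
      _ ≤ 1 := by nlinarith [sq_nonneg ((1 - α) * (1 / ((n:ℝ) + 1)))]
  have h7 : 0 < ((n:ℝ) + 1) ^ (1 - α) := by positivity
  calc A (α - 1) n * (1 - (1 - α) * (1 / ((n:ℝ) + 1))) *
        (((n:ℝ) + 1) ^ (1 - α) * (1 + 1 / ((n:ℝ) + 1)) ^ (1 - α)) =
        A (α - 1) n * ((n:ℝ) + 1) ^ (1 - α) *
          ((1 - (1 - α) * (1 / ((n:ℝ) + 1))) * (1 + 1 / ((n:ℝ) + 1)) ^ (1 - α)) := by ring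
    _ ≤ A (α - 1) n * ((n:ℝ) + 1) ^ (1 - α) * 1 := mul_le_mul_of_nonneg_left h6 (by positivity)
    _ = _ := mul_one _

theorem A_lower {α : ℝ} (h0 : 0 < α) (h1 : α < 1) (n : ℕ) :
    α ≤ A (α - 1) (n + 1) * ((n:ℝ) + 1) ^ (1 - α) := by
  induction n with
  | zero =>
    rw [A_succ]
    simp [A]
  | succ n ih =>
    refine ih.trans ?_
    rw [A_succ (α - 1) (n + 1)]
    push_cast
    have hA := A_pos (β := α - 1) (by linarith) (n + 1)
    have hn : (0:ℝ) < (n:ℝ) + 1 := by positivity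
    have hn2 : (0:ℝ) < (n:ℝ) + 1 + 1 := by positivity
    have hx : 1 / ((n:ℝ) + 1 + 1) ≤ 1 := by
      rw [div_le_one hn2]
      linarith
    have h2 := rpow_one_add_le_one_add_mul_self (s := -(1 / ((n:ℝ) + 1 + 1))) (p := 1 - α)
      (by linarith) (by linarith) (by linarith)
    have h3 : ((n:ℝ) + 1) ^ (1 - α) =
        ((n:ℝ) + 1 + 1) ^ (1 - α) * (1 + -(1 / ((n:ℝ) + 1 + 1))) ^ (1 - α) := by
      rw [← Real.mul_rpow hn2.le (by linarith)]
      congr 1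
      field_simp
      ring
    have h4 : (α - 1 + ((n:ℝ) + 1 + 1)) / ((n:ℝ) + 1 + 1) = 1 + (1 - α) * -(1 / ((n:ℝ) + 1 + 1)) := by
      field_simp
      ring
    rw [h3, h4]
    have h7 : 0 < ((n:ℝ) + 1 + 1) ^ (1 - α) := by positivity
    calc A (α - 1) (n + 1) * (((n:ℝ) + 1 + 1) ^ (1 - α) * (1 + -(1 / ((n:ℝ) + 1 + 1))) ^ (1 - α)) ≤
          A (α - 1) (n + 1) * (((n:ℝ) + 1 + 1) ^ (1 - α) * (1 + (1 - α) * -(1 / ((n:ℝ) + 1 + 1)))) := by
          gcongr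
      _ = _ := by ring

theorem vC_lower {α : ℝ} (h0 : 0 < α) (h1 : α < 1) (n : ℕ) : α ≤ vC α n := by
  rcases n with _ | n
  · simp [vC, A]
    exact h1.le
  · refine (A_lower h0 h1 n).trans ?_
    unfold vC
    have hA := A_pos (β := α - 1) (by linarith) (n + 1)
    refine mul_le_mul_of_nonneg_left ?_ hA.le
    refine Real.rpow_le_rpow (by positivity) ?_ (by linarith)
    push_cast
    linarith

theorem good_C {α : ℝ} (h0 : 0 < α) (h1 : α < 1) : Good α (A (α - 1)) := by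
  have h2 := good_of h0 h1 (vC_anti h0 h1) h0 (vC_lower h0 h1)
  have h3 : (fun n : ℕ => vC α n * ((n:ℝ) + 1) ^ (α - 1)) = A (α - 1) := by
    funext n
    unfold vC
    rw [mul_assoc, ← Real.rpow_add (by positivity)]
    have : (1 - α) + (α - 1) = 0 := by ring
    rw [this, Real.rpow_zero, mul_one]
  rwa [h3] at h2

theorem A_rel {α : ℝ} (h0 : 0 < α) (n : ℕ) : A α n = (α + n) / α * A (α - 1) n := by
  induction n with
  | zero => simp [A, h0.ne']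
  | succ n ih =>
    rw [A_succ, A_succ, ih]
    push_cast
    have : ((n:ℝ) + 1) ≠ 0 := by positivity
    field_simp
    ring

theorem A_upper {α : ℝ} (h0 : 0 < α) (h1 : α < 1) (N : ℕ) :
    A α (2 ^ (N + 1)) ≤ 4 ^ α / α * ((2:ℝ) ^ N) ^ α := by
  rw [A_rel h0]
  have h2 : A (α - 1) (2 ^ (N + 1)) ≤ (((2 ^ (N + 1) : ℕ) : ℝ) + 1) ^ (α - 1) := by
    have h3 := vC_anti h0 h1 (Nat.zero_le (2 ^ (N + 1)))
    have h4 : vC α 0 = 1 := by simp [vC, A]
    rw [h4] at h3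
    unfold vC at h3
    have hp : (0:ℝ) < ((2 ^ (N + 1) : ℕ) : ℝ) + 1 := by positivity
    have h5 : (((2 ^ (N + 1) : ℕ) : ℝ) + 1) ^ (α - 1) = ((((2 ^ (N + 1) : ℕ) : ℝ) + 1) ^ (1 - α))⁻¹ := by
      rw [← Real.rpow_neg hp.le]
      congr 1
      ring
    rw [h5, ← one_div, le_div_iff₀ (by positivity)]
    exact h3
  have hp : (0:ℝ) < ((2 ^ (N + 1) : ℕ) : ℝ) + 1 := by positivity
  have h2N : (1:ℝ) ≤ 2 ^ (N + 1) := one_le_pow₀ (by norm_num)
  calc (α + ((2 ^ (N + 1) : ℕ) : ℝ)) / α * A (α - 1) (2 ^ (N + 1)) ≤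
        ((((2 ^ (N + 1) : ℕ) : ℝ)) + 1) / α * (((2 ^ (N + 1) : ℕ) : ℝ) + 1) ^ (α - 1) := by
        refine mul_le_mul ?_ h2 (A_pos (by linarith) _).le (by positivity)
        refine div_le_div_of_nonneg_right ?_ h0.le
        linarith
    _ = (((2 ^ (N + 1) : ℕ) : ℝ) + 1) ^ α / α := by
        rw [Real.rpow_sub_one hp.ne']
        field_simp
    _ ≤ (4 * 2 ^ N) ^ α / α := by
        gcongr
        push_cast
        have : (2:ℝ) ^ (N + 1) = 2 * 2 ^ N := by ring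
        linarith
    _ = _ := by
        rw [Real.mul_rpow (by norm_num) (by positivity)]
        ring

end Pool.Agent.R243.WN
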